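import Mathlib

namespace Pool.Agent.Results.MP_81fdd0_co.InfiniteClique

/-- `w` properly overlaps `w'`: there is a nonempty word `x` which is a suffix of the reduced word
of `w`, an initial segment of the reduced word of `w'`, and strictly shorter than both. -/
def ProperlyOverlaps {α : Type*} [DecidableEq α] (w w' : FreeGroup α) : Prop :=
  ∃ x : List (α × Bool), x ≠ [] ∧ x <:+ w.toWord ∧ x <+: w'.toWord ∧
    x.length < w.toWord.length ∧ x.length < w'.toWord.length

/-- `w` is non-self-overlapping: `w ≠ 1`, and no nonempty word is both a proper initial segment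
and a proper suffix of the reduced word of `w`. -/
def NonSelfOverlapping {α : Type*} [DecidableEq α] (w : FreeGroup α) : Prop :=
  w ≠ 1 ∧ ¬ ∃ x : List (α × Bool), x ≠ [] ∧ x <+: w.toWord ∧ x <:+ w.toWord ∧
    x.length < w.toWord.length

/-- The underlying undirected graph of the overlap graph `OG(V)`: its vertex set is `V`, and two
distinct elements are adjacent when one of them properly overlaps the other. -/
def OG {α : Type*} [DecidableEq α] (V : Set (FreeGroup α)) : SimpleGraph V where
  Adj w w' := w ≠ w' ∧ (ProperlyOverlaps w.1 w'.1 ∨ ProperlyOverlaps w'.1 w.1)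
  symm := ⟨fun _ _ h => ⟨h.1.symm, h.2.symm⟩⟩
  loopless := ⟨fun _ h => h.1 rfl⟩

/-- The vertices of the quotient graph: the pairs `{w, w⁻¹}` with `w ∈ V`. -/
def InvPairs {α : Type*} (V : Set (FreeGroup α)) : Set (Set (FreeGroup α)) :=
  {p | ∃ w ∈ V, p = {w, w⁻¹}}

/-- The quotient graph of `OG(V)` by `w ~ w⁻¹`: its vertices are the pairs `{w, w⁻¹}`, `w ∈ V`; two
distinct pairs are adjacent when some element of one of them and some element of the other
are joined in `OG(V)`, in either direction. -/
def OGbar {α : Type*} [DecidableEq α] (V : Set (FreeGroup α)) : SimpleGraph (InvPairs V) where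
  Adj p q := p ≠ q ∧ ∃ w ∈ p.1, ∃ w' ∈ q.1, ProperlyOverlaps w w' ∨ ProperlyOverlaps w' w
  symm := ⟨by
    rintro p q ⟨h, w, hw, w', hw', h'⟩
    exact ⟨h.symm, w', hw', w, hw, h'.symm⟩⟩
  loopless := ⟨fun _ h => h.1 rfl⟩

section aux

set_option linter.unusedSectionVars false

variable {α : Type*} [DecidableEq α]

theorem invRev_suffix {x y : List (α × Bool)} (h : x <:+ y) :
    FreeGroup.invRev x <+: FreeGroup.invRev y := by
  obtain ⟨t, rfl⟩ := h
  exact ⟨FreeGroup.invRev t, by simp [FreeGroup.invRev]⟩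

theorem invRev_pre {x y : List (α × Bool)} (h : x <+: y) :
    FreeGroup.invRev x <:+ FreeGroup.invRev y := by
  obtain ⟨t, rfl⟩ := h
  exact ⟨FreeGroup.invRev t, by simp [FreeGroup.invRev]⟩

theorem properlyOverlaps_inv {w w' : FreeGroup α} (h : ProperlyOverlaps w w') :
    ProperlyOverlaps w'⁻¹ w⁻¹ := by
  obtain ⟨x, hx, h1, h2, h3, h4⟩ := h
  refine ⟨FreeGroup.invRev x, ?_, ?_, ?_, ?_, ?_⟩
  · intro h
    apply hx
    have := congrArg FreeGroup.invRev h
    simpa using this
  · rw [FreeGroup.toWord_inv]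
    exact invRev_pre h2
  · rw [FreeGroup.toWord_inv]
    exact invRev_suffix h1
  · simpa [FreeGroup.toWord_inv] using h4
  · simpa [FreeGroup.toWord_inv] using h3

/-- The words `x_0 = b`, `x_{j+1} = x_j a x_j⁻¹`. -/
def xw (a b : α) : ℕ → List (α × Bool)
  | 0 => [(b, true)]
  | j + 1 => xw a b j ++ (a, true) :: FreeGroup.invRev (xw a b j)

theorem invRev_xw_succ (a b : α) (j : ℕ) :
    FreeGroup.invRev (xw a b (j + 1)) = xw a b j ++ (a, false) :: FreeGroup.invRev (xw a b j) := by
  simp [xw, FreeGroup.invRev, Function.comp_def]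

theorem xw_length (a b : α) (j : ℕ) : (xw a b (j + 1)).length = 2 * (xw a b j).length + 1 := by
  simp [xw]
  omega

theorem xw_strictMono (a b : α) : StrictMono fun j => (xw a b j).length :=
  strictMono_nat_of_lt_succ fun j => by
    rw [xw_length]
    omega

/-- All letters alternate between the two generators; the first and last letter is a power
of the second generator. -/
theorem xw_shape {a b : α} (hab : a ≠ b) (j : ℕ) :
    (xw a b j).IsChain (fun p q => p.1 ≠ q.1) ∧
      (∃ t, xw a b j = (b, true) :: t) ∧ (∃ t s, xw a b j = t ++ [(b, s)]) := by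
  induction j with
  | zero => exact ⟨by simp [xw], ⟨[], rfl⟩, ⟨[], true, rfl⟩⟩
  | succ j ih =>
    obtain ⟨hc, ⟨t, ht⟩, ⟨t', s', ht'⟩⟩ := ih
    refine ⟨?_, ?_, ?_⟩
    · have hinv : (FreeGroup.invRev (xw a b j)).IsChain (fun p q => p.1 ≠ q.1) := by
        rw [FreeGroup.invRev, List.isChain_reverse, List.isChain_map]
        exact hc.imp fun p q h h' => h h'.symm
      have hhead : (FreeGroup.invRev (xw a b j)) = (b, !s') :: FreeGroup.invRev t' := by
        rw [ht']
        simp [FreeGroup.invRev]
      rw [xw, List.isChain_append]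
      refine ⟨hc, ?_, ?_⟩
      · rw [List.isChain_cons]
        refine ⟨?_, hinv⟩
        rw [hhead]
        intro y hy
        simp at hy
        rw [← hy]
        exact hab
      · rw [ht']
        intro x hx y hy
        simp at hx hy
        rw [← hx, ← hy]
        exact hab.symm
    · exact ⟨t ++ (a, true) :: FreeGroup.invRev (xw a b j), by rw [xw]; nth_rw 1 [ht]; rfl⟩
    · refine ⟨xw a b j ++ (a, true) :: FreeGroup.invRev t, false, ?_⟩
      rw [xw]
      have : FreeGroup.invRev (xw a b j) = FreeGroup.invRev t ++ [(b, false)] := by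
        rw [ht]
        simp [FreeGroup.invRev]
      rw [this]
      simp

/-- The elements `w_j = a a x_j`. -/
def wd (a b : α) (j : ℕ) : FreeGroup α :=
  FreeGroup.mk ((a, true) :: (a, true) :: xw a b j)

theorem toWord_wd {a b : α} (hab : a ≠ b) (j : ℕ) :
    (wd a b j).toWord = (a, true) :: (a, true) :: xw a b j := by
  rw [wd, FreeGroup.toWord_mk]
  apply FreeGroup.IsReduced.reduce_eq
  obtain ⟨hc, ⟨t, ht⟩, -⟩ := xw_shape hab j
  rw [FreeGroup.IsReduced, List.isChain_cons, List.isChain_cons]
  refine ⟨?_, ?_, ?_⟩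
  · intro y hy
    simp at hy
    rw [← hy]
    simp
  · intro y hy
    rw [ht] at hy
    simp at hy
    rw [← hy]
    intro h
    exact absurd h hab
  · exact hc.imp fun p q h h' => absurd h' h

theorem wd_key {a b : α} (hab : a ≠ b) (i j : ℕ) (x : List (α × Bool)) (hx : x ≠ [])
    (h1 : x <:+ (wd a b i).toWord) (h2 : x <+: (wd a b j).toWord)
    (h3 : x.length < (wd a b i).toWord.length) : False := by
  rw [toWord_wd hab] at h1 h2 h3
  obtain ⟨hc, ⟨t, ht⟩, ⟨t', s', ht'⟩⟩ := xw_shape hab i
  have h1' : x <:+ (a, true) :: xw a b i := by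
    rcases List.suffix_cons_iff.1 h1 with h | h
    · rw [h] at h3
      simp at h3
    · exact h
  have hchain : ((a, true) :: xw a b i).IsChain (fun p q : α × Bool => p.1 ≠ q.1) := by
    rw [List.isChain_cons]
    refine ⟨?_, hc⟩
    rw [ht]
    intro y hy
    simp at hy
    rw [← hy]
    exact hab
  match x, hx with
  | [p], _ =>
    have hp : p = (a, true) := by
      obtain ⟨u, hu⟩ := h2
      simp at hu
      exact hu.1
    obtain ⟨u, hu⟩ := h1'
    rw [ht', hp] at hu
    have h5 : (u ++ [(a, true)]).getLast (by simp) = ((a, true) :: (t' ++ [(b, s')])).getLast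
        (by simp) := by
      congr 1
    simp at h5
    exact hab h5.1
  | p :: q :: x', _ =>
    have hp : p = (a, true) ∧ q = (a, true) := by
      obtain ⟨u, hu⟩ := h2
      simp at hu
      exact ⟨hu.1, hu.2.1⟩
    have h6 := hchain.suffix h1'
    rw [List.isChain_cons] at h6
    have := h6.1 q (by simp)
    rw [hp.1, hp.2] at this
    exact this rfl

theorem not_overlap {a b : α} (hab : a ≠ b) (i j : ℕ) :
    ¬ ProperlyOverlaps (wd a b i) (wd a b j) := by
  rintro ⟨x, hx, h1, h2, h3, -⟩
  exact wd_key hab i j x hx h1 h2 h3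

theorem not_overlap_inv {a b : α} (hab : a ≠ b) (i j : ℕ) :
    ¬ ProperlyOverlaps (wd a b i)⁻¹ (wd a b j)⁻¹ := by
  intro h
  have := properlyOverlaps_inv h
  rw [inv_inv, inv_inv] at this
  exact not_overlap hab j i this

theorem wd_ne_one {a b : α} (hab : a ≠ b) (i : ℕ) : wd a b i ≠ 1 := by
  intro h
  have := congrArg FreeGroup.toWord h
  rw [toWord_wd hab] at this
  simp at this

theorem nonSelf {a b : α} (hab : a ≠ b) (i : ℕ) : NonSelfOverlapping (wd a b i) := by
  refine ⟨wd_ne_one hab i, ?_⟩
  rintro ⟨x, hx, h1, h2, h3⟩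
  exact wd_key hab i i x hx h2 h1 h3

theorem nonSelf_inv {a b : α} (hab : a ≠ b) (i : ℕ) : NonSelfOverlapping (wd a b i)⁻¹ := by
  refine ⟨inv_ne_one.2 (wd_ne_one hab i), ?_⟩
  rintro ⟨x, hx, h1, h2, h3⟩
  rw [FreeGroup.toWord_inv] at h1 h2 h3
  refine wd_key hab i i (FreeGroup.invRev x) ?_ ?_ ?_ ?_
  · intro h
    apply hx
    have := congrArg FreeGroup.invRev h
    simpa using this
  · have := invRev_pre h1
    rwa [FreeGroup.invRev_invRev] at this
  · have := invRev_suffix h2
    rwa [FreeGroup.invRev_invRev] at this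
  · simpa using h3

theorem xw_pre (a b : α) {i j : ℕ} (h : i ≤ j) : xw a b i <+: xw a b j := by
  induction j, h using Nat.le_induction with
  | base => exact List.prefix_rfl
  | succ j hj ih => exact ih.trans ⟨(a, true) :: FreeGroup.invRev (xw a b j), rfl⟩

theorem overlap {a b : α} (hab : a ≠ b) {i j : ℕ} (h : i < j) :
    ProperlyOverlaps (wd a b i) (wd a b j)⁻¹ := by
  obtain ⟨k, rfl⟩ : ∃ k, j = k + 1 := ⟨j - 1, by omega⟩
  obtain ⟨-, ⟨t, ht⟩, -⟩ := xw_shape hab i
  refine ⟨xw a b i, by simp [ht], ?_, ?_, ?_, ?_⟩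
  · rw [toWord_wd hab]
    exact ⟨[(a, true), (a, true)], rfl⟩
  · rw [FreeGroup.toWord_inv, toWord_wd hab]
    have h1 : xw a b i <+: xw a b k := xw_pre a b (by omega)
    have h2 : xw a b k <+: FreeGroup.invRev (xw a b (k + 1)) := by
      rw [invRev_xw_succ]
      exact ⟨_, rfl⟩
    have h3 : FreeGroup.invRev (xw a b (k + 1)) <+:
        FreeGroup.invRev ((a, true) :: (a, true) :: xw a b (k + 1)) :=
      invRev_suffix ⟨[(a, true), (a, true)], rfl⟩
    exact (h1.trans h2).trans h3
  · rw [toWord_wd hab]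
    simp
  · rw [FreeGroup.toWord_inv, toWord_wd hab, FreeGroup.invRev_length]
    have := xw_strictMono a b h
    simp at this ⊢
    omega

end aux

/-- **Negative answer to Q1, in every rank.** For every `r ≥ 2` the free group of rank `r` (with its
standard basis) has a symmetric set `V` of non-self-overlapping words such that `OG(V)` has no
clique of size `3`, but the quotient graph of `OG(V)` by inversion contains an infinite complete
subgraph, hence complete subgraphs of every finite size. -/
theorem result (r : ℕ) (hr : 2 ≤ r) :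
    ∃ V : Set (FreeGroup (Fin r)), (∀ w ∈ V, w⁻¹ ∈ V) ∧ (∀ w ∈ V, NonSelfOverlapping w) ∧
      (OG V).CliqueFree 3 ∧ (∀ n : ℕ, ¬ (OGbar V).CliqueFree n) ∧
      Nonempty ((⊤ : SimpleGraph ℕ) ↪g OGbar V) := by
  classical
  let a : Fin r := ⟨0, by omega⟩
  let b : Fin r := ⟨1, by omega⟩
  have hab : a ≠ b := by
    intro h
    have := congrArg Fin.val h
    simp [a, b] at this
  let V : Set (FreeGroup (Fin r)) := {g | ∃ j, g = wd a b j ∨ g = (wd a b j)⁻¹}
  have hemb : Nonempty ((⊤ : SimpleGraph ℕ) ↪g OGbar V) := by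
    let f : ℕ → InvPairs V := fun j => ⟨{wd a b j, (wd a b j)⁻¹}, wd a b j, ⟨j, Or.inl rfl⟩, rfl⟩
    have hlen : ∀ j, (wd a b j).toWord.length = (xw a b j).length + 2 := by
      intro j
      rw [toWord_wd hab]
      simp
    have hinj : Function.Injective f := by
      intro i j hij
      have h1 : ({wd a b i, (wd a b i)⁻¹} : Set (FreeGroup (Fin r))) =
          {wd a b j, (wd a b j)⁻¹} := congrArg Subtype.val hij
      have h2 : wd a b i ∈ ({wd a b j, (wd a b j)⁻¹} : Set (FreeGroup (Fin r))) := by
        rw [← h1]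
        simp
      have h3 : (wd a b i).toWord.length = (wd a b j).toWord.length := by
        rcases h2 with h2 | h2
        · rw [h2]
        · rw [h2, FreeGroup.toWord_inv, FreeGroup.invRev_length]
      rw [hlen, hlen] at h3
      exact (xw_strictMono a b).injective (by simpa using h3)
    refine ⟨⟨⟨f, hinj⟩, ?_⟩⟩
    intro i j
    simp only [Function.Embedding.coeFn_mk, SimpleGraph.top_adj]
    constructor
    · rintro ⟨h, -⟩ rfl
      exact h rfl
    · intro hne
      refine ⟨fun h => hne (hinj h), ?_⟩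
      rcases lt_or_gt_of_ne hne with h | h
      · exact ⟨wd a b i, by simp [f], (wd a b j)⁻¹, by simp [f], Or.inl (overlap hab h)⟩
      · exact ⟨(wd a b i)⁻¹, by simp [f], wd a b j, by simp [f], Or.inr (overlap hab h)⟩
  refine ⟨V, ?_, ?_, ?_, ?_, hemb⟩
  · rintro w ⟨j, rfl | rfl⟩
    · exact ⟨j, Or.inr rfl⟩
    · exact ⟨j, Or.inl (inv_inv _)⟩
  · rintro w ⟨j, rfl | rfl⟩
    · exact nonSelf hab j
    · exact nonSelf_inv hab j
  · have hcol : (OG V).Colorable 2 := by
      refine ⟨SimpleGraph.Coloring.mk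
        (fun w => if ∃ j, (w : FreeGroup (Fin r)) = wd a b j then 0 else 1) ?_⟩
      rintro ⟨v, hv⟩ ⟨w, hw⟩ ⟨-, hadj⟩
      simp only at hadj ⊢
      by_cases h1 : ∃ j, v = wd a b j
      · by_cases h2 : ∃ j, w = wd a b j
        · obtain ⟨i, rfl⟩ := h1
          obtain ⟨j, rfl⟩ := h2
          rcases hadj with h | h
          · exact (not_overlap hab _ _ h).elim
          · exact (not_overlap hab _ _ h).elim
        · rw [if_pos h1, if_neg h2]
          decide
      · by_cases h2 : ∃ j, w = wd a b j
        · rw [if_neg h1, if_pos h2]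
          decide
        · obtain ⟨i, hi⟩ := hv
          obtain ⟨j, hj⟩ := hw
          have hi' : v = (wd a b i)⁻¹ := hi.resolve_left fun h => h1 ⟨i, h⟩
          have hj' : w = (wd a b j)⁻¹ := hj.resolve_left fun h => h2 ⟨j, h⟩
          subst hi' hj'
          rcases hadj with h | h
          · exact (not_overlap_inv hab _ _ h).elim
          · exact (not_overlap_inv hab _ _ h).elim
    exact hcol.cliqueFree (by norm_num)
  · intro n
    obtain ⟨e⟩ := hemb
    have e' : (⊤ : SimpleGraph (Fin n)) ↪g (⊤ : SimpleGraph ℕ) :=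
      SimpleGraph.Embedding.completeGraph ⟨fun i : Fin n => (i : ℕ), Fin.val_injective⟩
    exact SimpleGraph.IsContained.not_cliqueFree ⟨(e.comp e').toCopy⟩

end Pool.Agent.Results.MP_81fdd0_co.InfiniteClique
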